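import Mathlib

/-!
MP_f888fa_lc: a finite set of conditional equations valid in all common meadows that derives
every `φ_p`, `p ≥ 5` prime (indeed every `φ_n`, `n` odd).
-/

set_option autoImplicit false

namespace Pool.Agent.Results.MP_f888fa_lc.FiniteSet

/-- Algebras for the signature `Σ = (0, 1, ⊥, +, -, ·, ÷)`. -/
structure Alg where
  carrier : Type
  zero : carrier
  one : carrier
  bot : carrier
  add : carrier → carrier → carrier
  neg : carrier → carrier
  mul : carrier → carrier → carrier
  div : carrier → carrier → carrier

/-- A binary operation extended to `F ∪ {⊥}`, with `⊥ = none` absorptive. -/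
def lift2 {F : Type} (f : F → F → Option F) : Option F → Option F → Option F
  | some x, some y => f x y
  | _, _ => none

open Classical in
/-- Division of the common meadow: `x / y = x · y⁻¹` for `y ≠ 0` and `x / 0 = ⊥`. -/
noncomputable def cdiv {F : Type} [Field F] (x y : F) : Option F :=
  if y = 0 then none else some (x * y⁻¹)

/-- The common meadow of a field. -/
noncomputable def meadow (F : Type) [Field F] : Alg where
  carrier := Option F
  zero := some 0
  one := some 1
  bot := none
  add := lift2 fun x y => some (x + y)
  neg := Option.map fun x => -x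
  mul := lift2 fun x y => some (x * y)
  div := lift2 cdiv

/-- `Σ`-terms, with variables indexed by `ℕ`. -/
inductive Term where
  | var : ℕ → Term
  | zero : Term
  | one : Term
  | bot : Term
  | add : Term → Term → Term
  | neg : Term → Term
  | mul : Term → Term → Term
  | div : Term → Term → Term

/-- Value of a term under an assignment. -/
def Term.eval (A : Alg) (v : ℕ → A.carrier) : Term → A.carrier
  | .var n => v n
  | .zero => A.zero
  | .one => A.one
  | .bot => A.bot
  | .add s t => A.add (s.eval A v) (t.eval A v)
  | .neg t => A.neg (t.eval A v)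
  | .mul s t => A.mul (s.eval A v) (t.eval A v)
  | .div s t => A.div (s.eval A v) (t.eval A v)

/-- A conditional equation `e₁ ∧ … ∧ eₙ → e`; an equation is a pair of terms. -/
structure CondEq where
  hyps : List (Term × Term)
  concl : Term × Term

/-- `A ⊨ φ`. -/
def Sat (A : Alg) (φ : CondEq) : Prop :=
  ∀ v : ℕ → A.carrier, (∀ p ∈ φ.hyps, p.1.eval A v = p.2.eval A v) →
    φ.concl.1.eval A v = φ.concl.2.eval A v

/-- The numeral `1 + 1 + ⋯ + 1` with `n + 1` summands. -/
def numSucc : ℕ → Term
  | 0 => .one
  | n + 1 => .add (numSucc n) .one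

/-- The numeral of `n ≥ 1`. -/
def num (n : ℕ) : Term := numSucc (n - 1)

/-- `φ_p`: `0/2 · 0/3 = 0/2 · 0/p → 0/3 = 0/p`. -/
def phi (p : ℕ) : CondEq where
  hyps := [(.mul (.div .zero (num 2)) (.div .zero (num 3)),
    .mul (.div .zero (num 2)) (.div .zero (num p)))]
  concl := (.div .zero (num 3), .div .zero (num p))

/-- Derivability `E ⊢ φ` in conditional equational logic, in its equivalent semantic form: `φ` is
true in every `Σ`-algebra satisfying `E`. -/
def Derives (E : Set CondEq) (φ : CondEq) : Prop :=
  ∀ A : Alg, (∀ ψ ∈ E, Sat A ψ) → Sat A φ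

/-- The key conditional equation:
`2·m = x + 1 ∧ 0·x = 0 ∧ 0/2 · 0/3 = 0/2 · 0/x → 0/3 = 0/x`. -/
def key : CondEq where
  hyps := [(.mul (num 2) (.var 1), .add (.var 0) .one),
    (.mul .zero (.var 0), .zero),
    (.mul (.div .zero (num 2)) (.div .zero (num 3)),
      .mul (.div .zero (num 2)) (.div .zero (.var 0)))]
  concl := (.div .zero (num 3), .div .zero (.var 0))

def distrib : CondEq where
  hyps := []
  concl := (.mul (.var 0) (.add (.var 1) (.var 2)),
    .add (.mul (.var 0) (.var 1)) (.mul (.var 0) (.var 2)))

def mulOne : CondEq where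
  hyps := []
  concl := (.mul (.var 0) .one, .var 0)

def addAssoc : CondEq where
  hyps := []
  concl := (.add (.var 0) (.add (.var 1) (.var 2)), .add (.add (.var 0) (.var 1)) (.var 2))

def addZero : CondEq where
  hyps := []
  concl := (.add (.var 0) .zero, .var 0)

/-- The finite set. -/
def E : Set CondEq := {key, distrib, mulOne, addAssoc, addZero}

theorem num_eval (F : Type) [Field F] (v : ℕ → (meadow F).carrier) (n : ℕ) :
    (numSucc n).eval (meadow F) v = some ((n : F) + 1) := by
  induction n with
  | zero => simp [numSucc, Term.eval, meadow]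
  | succ n ih =>
    simp only [numSucc, Term.eval, ih]
    simp [meadow, lift2]

theorem two_eval (F : Type) [Field F] (v : ℕ → (meadow F).carrier) :
    (num 2).eval (meadow F) v = some (2 : F) := by
  have h := num_eval F v 1
  have e : ((1 : ℕ) : F) + 1 = 2 := by norm_num
  rw [e] at h
  exact h

theorem three_eval (F : Type) [Field F] (v : ℕ → (meadow F).carrier) :
    (num 3).eval (meadow F) v = some (3 : F) := by
  have h := num_eval F v 2
  have e : ((2 : ℕ) : F) + 1 = 3 := by norm_num
  rw [e] at h
  exact h

theorem key_aux (F : Type) [Field F] (x m : Option F)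
    (h1 : lift2 (fun x y : F => some (x * y)) (some 2) m = lift2 (fun x y => some (x + y)) x (some 1))
    (h2 : lift2 (fun x y : F => some (x * y)) (some 0) x = some 0)
    (h3 : lift2 (fun x y : F => some (x * y)) (cdiv 0 2) (cdiv 0 3) =
      lift2 (fun x y : F => some (x * y)) (cdiv 0 2) (lift2 cdiv (some 0) x)) :
    cdiv 0 (3 : F) = lift2 cdiv (some 0) x := by
  rcases x with _ | x
  · exact absurd h2 (by simp [lift2])
  rcases m with _ | m
  · exact absurd h1 (by simp [lift2])
  simp only [lift2, Option.some.injEq] at h1 h3 ⊢
  unfold cdiv at *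
  by_cases c2 : (2 : F) = 0
  · have c3 : (3 : F) ≠ 0 := by
      intro h
      have : (1 : F) = 0 := by linear_combination h - c2
      exact one_ne_zero this
    have cx : x ≠ 0 := by
      rintro rfl
      have : (1 : F) = 0 := by linear_combination c2 * m - h1
      exact one_ne_zero this
    rw [if_neg c3, if_neg cx, zero_mul, zero_mul]
  · rw [if_neg c2] at h3
    by_cases c3 : (3 : F) = 0
    · by_cases cx : x = 0
      · rw [if_pos c3, if_pos cx]
      · rw [if_pos c3, if_neg cx] at h3
        simp at h3
    · by_cases cx : x = 0
      · rw [if_neg c3, if_pos cx] at h3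
        simp at h3
      · rw [if_neg c3, if_neg cx, zero_mul, zero_mul]

theorem key_valid (F : Type) [Field F] : Sat (meadow F) key := by
  intro v hv
  have h1 := hv _ (List.mem_cons_self)
  have h2 := hv _ (List.mem_cons_of_mem _ (List.mem_cons_self))
  have h3 := hv _ (List.mem_cons_of_mem _ (List.mem_cons_of_mem _ (List.mem_cons_self)))
  have h1' : lift2 (fun x y : F => some (x * y)) ((num 2).eval (meadow F) v) (v 1) =
    lift2 (fun x y => some (x + y)) (v 0) (some 1) := h1
  rw [two_eval] at h1'
  have h3' : lift2 (fun x y : F => some (x * y)) (lift2 cdiv (some 0) ((num 2).eval (meadow F) v))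
      (lift2 cdiv (some 0) ((num 3).eval (meadow F) v)) =
      lift2 (fun x y : F => some (x * y)) (lift2 cdiv (some 0) ((num 2).eval (meadow F) v))
        (lift2 cdiv (some 0) (v 0)) := h3
  rw [two_eval, three_eval] at h3'
  change lift2 cdiv (some 0) ((num 3).eval (meadow F) v) = lift2 cdiv (some 0) (v 0)
  rw [three_eval]
  exact key_aux F (v 0) (v 1) h1' h2 h3'

theorem E_valid (F : Type) [Field F] : ∀ φ ∈ E, Sat (meadow F) φ := by
  intro φ hφ
  rcases hφ with rfl | rfl | rfl | rfl | rfl
  · exact key_valid F
  · intro v _
    simp only [distrib, Term.eval]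
    rcases v 0 with _ | x <;> rcases v 1 with _ | y <;> rcases v 2 with _ | z <;>
      simp [meadow, lift2, mul_add]
  · intro v _
    simp only [mulOne, Term.eval]
    rcases v 0 with _ | x <;> simp [meadow, lift2]
  · intro v _
    simp only [addAssoc, Term.eval]
    rcases v 0 with _ | x <;> rcases v 1 with _ | y <;> rcases v 2 with _ | z <;>
      simp [meadow, lift2, add_assoc]
  · intro v _
    simp only [addZero, Term.eval]
    rcases v 0 with _ | x <;> simp [meadow, lift2]

/-- There is a finite set `E` of conditional equations, each valid in every common meadow, that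
derives `φ_n` for every odd `n`, in particular for every prime `p ≥ 5`. -/
theorem result : ∃ E : Set CondEq, E.Finite ∧
    (∀ ψ ∈ E, ∀ (F : Type) [Field F], Sat (meadow F) ψ) ∧
    ∀ n : ℕ, Odd n → Derives E (phi n) := by
  refine ⟨E, ?_, fun ψ hψ F _ => E_valid F ψ hψ, ?_⟩
  · unfold E
    exact Set.toFinite _
  · rintro n ⟨j, rfl⟩ A hA v hv
    have hkey : Sat A key := hA _ (by simp [E])
    have hdis : Sat A distrib := hA _ (by simp [E])
    have hone : Sat A mulOne := hA _ (by simp [E])
    have hass : Sat A addAssoc := hA _ (by simp [E])
    have hzer : Sat A addZero := hA _ (by simp [E])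
    have dis : ∀ a b c, A.mul a (A.add b c) = A.add (A.mul a b) (A.mul a c) := fun a b c =>
      hdis (fun i => if i = 0 then a else if i = 1 then b else c) (by simp [distrib])
    have one : ∀ a, A.mul a A.one = a := fun a => hone (fun _ => a) (by simp [mulOne])
    have ass : ∀ a b c, A.add a (A.add b c) = A.add (A.add a b) c := fun a b c =>
      hass (fun i => if i = 0 then a else if i = 1 then b else c) (by simp [addAssoc])
    have zer : ∀ a, A.add a A.zero = a := fun a => hzer (fun _ => a) (by simp [addZero])
    have ev : ∀ (n : ℕ) (w w' : ℕ → A.carrier), (numSucc n).eval A w = (numSucc n).eval A w' := by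
      intro n w w'
      induction n with
      | zero => rfl
      | succ n ih => simp only [numSucc, Term.eval, ih]
    have hz : ∀ n : ℕ, A.mul A.zero ((numSucc n).eval A v) = A.zero := by
      intro n
      induction n with
      | zero => simp only [numSucc, Term.eval, one]
      | succ n ih => simp only [numSucc, Term.eval, dis, ih, one, zer]
    have hd : ∀ n : ℕ, A.mul ((numSucc 1).eval A v) ((numSucc n).eval A v) =
        A.add ((numSucc (2 * n)).eval A v) A.one := by
      intro n
      induction n with
      | zero => simp only [numSucc, Term.eval, one]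
      | succ n ih =>
        have e : 2 * (n + 1) = 2 * n + 1 + 1 := by ring
        rw [e]
        simp only [numSucc, Term.eval] at ih ⊢
        rw [dis, ih, one, ass]
    let w : ℕ → A.carrier := fun i =>
      if i = 0 then (num (2 * j + 1)).eval A v else (numSucc j).eval A v
    have hw := hkey w ?_
    · simp only [key, Term.eval, phi, num] at hw ⊢
      rw [ev _ v w, hw]
      simp only [w, num, if_pos]
    · intro p hp
      simp only [key, List.mem_cons, List.not_mem_nil, or_false] at hp
      rcases hp with rfl | rfl | rfl
      · simp only [Term.eval, num, w, if_pos, Nat.one_ne_zero, if_false]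
        rw [ev _ _ v]
        simpa using hd j
      · simp only [Term.eval, num, w, if_pos]
        exact hz _
      · have h3 := hv _ (List.mem_cons_self)
        simp only [Term.eval, num, w, if_pos] at h3 ⊢
        rw [ev _ _ v, ev (3 - 1) _ v]
        exact h3

end Pool.Agent.Results.MP_f888fa_lc.FiniteSet
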